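import Pool.Agent.Lib.DK4.Gen2
import Pool.Agent.Lib.DK4.Num

/-!
# MP_6da7ef_an : the fourth Dirichlet eigenvalue of sets with an axis or a centre of symmetry

`lambda_4 * area >= 3 pi j01^2 > 16 pi` if the open set has an axis of symmetry or a centre of symmetry;
this contains the inequality of Polya for `k = 4` for these sets.
-/

open MeasureTheory Set

namespace Pool.Agent.Results.MP_6da7ef_an.OneSymmetry

open DK4

theorem result :
    16 * Real.pi < 3 * (Real.pi * j01 ^ 2) ∧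
    ∀ Ω : Set ℂ, IsOpen Ω → Ω.Nonempty → volume Ω ≠ ⊤ →
      ((∃ p a : ℂ, ‖a‖ = 1 ∧ ∀ z ∈ Ω, p + a ^ 2 * (starRingEnd ℂ) (z - p) ∈ Ω) ∨
        (∃ p : ℂ, ∀ z ∈ Ω, 2 * p - z ∈ Ω)) →
      3 * (Real.pi * j01 ^ 2) ≤ dirEig 4 Ω * volume.real Ω := by
  refine ⟨?_, ?_⟩
  · have h1 := j01_gt
    have h2 := Real.pi_pos
    have h3 : (5.76 : ℝ) < j01 ^ 2 := by nlinarith
    have h4 := mul_lt_mul_of_pos_left h3 h2
    linarith
  · rintro Ω hΩ hne hfin (⟨p, a, ha, hS⟩ | ⟨p, hS⟩)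
    · exact eig_axis ha hΩ hne hfin hS
    · exact eig_central hΩ hne hfin hS

end Pool.Agent.Results.MP_6da7ef_an.OneSymmetry
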